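import Pool.Agent.Helper65.EV.St

/-!
# Project EV, module HZ: the accumulated hazard over blocks
-/

set_option autoImplicit false

open scoped ENNReal

namespace Pool.Agent.Helper86.EV

open Pool.Agent.Helper65.EV Pool.Agent.Helper84.Eve

private lemma posl_append (l l' : List (Finset ℕ)) (a : ℕ) :
    posl (l ++ l') a = posl l' (posl l a) := by
  induction l generalizing a with
  | nil => rfl
  | cons κ l ih => exact ih (pos κ a)

private lemma le_posl (l : List (Finset ℕ)) (a : ℕ) : a ≤ posl l a := by
  induction l generalizing a with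
  | nil => exact le_rfl
  | cons κ l ih => exact (le_pos κ a).trans (ih (pos κ a))

private lemma posl_take_mono (l : List (Finset ℕ)) (a : ℕ) {r r' : ℕ} (h : r ≤ r') :
    posl (l.take r) a ≤ posl (l.take r') a := by
  have h1 : l.take r' = l.take r ++ (l.take r').drop r := by
    have h2 : (l.take r').take r = l.take r := by
      rw [List.take_take, min_eq_left h]
    rw [← h2]
    exact (List.take_append_drop r (l.take r')).symm
  rw [h1, posl_append]
  exact le_posl _ _

private lemma haz_eq (ρ : ℕ → ℝ≥0∞) (l : List (Finset ℕ)) (a : ℕ) :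
    haz ρ l a = ∑ r ∈ Finset.range l.length, ρ (posl (l.take r) a) := by
  induction l generalizing a with
  | nil => rfl
  | cons κ l ih =>
    rw [List.length_cons, Finset.sum_range_succ']
    change ρ a + haz ρ l (pos κ a) = _
    rw [ih (pos κ a), add_comm]
    rfl

/-- Module HZ. -/
theorem hHZ : hHZ := by
  intro ρ hρ M hM hM0 b J a l hl
  classical
  rw [haz_eq]
  have key : ∀ J' : ℕ, ∑ j ∈ Finset.range J', ((M (j + 1) - M j : ℕ) : ℝ≥0∞) *
      (if posl (l.take (M (j + 1))) a ≤ b j then ρ (b j) else 0) ≤
      ∑ r ∈ Finset.range (M J'), ρ (posl (l.take r) a) := by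
    intro J'
    induction J' with
    | zero =>
      rw [Finset.sum_range_zero]
      exact bot_le
    | succ J' ih =>
      rw [Finset.sum_range_succ]
      have h1 : M J' ≤ M (J' + 1) := hM (Nat.le_succ J')
      have h2 : ∑ r ∈ Finset.range (M (J' + 1)), ρ (posl (l.take r) a) =
          ∑ r ∈ Finset.range (M J'), ρ (posl (l.take r) a) +
            ∑ r ∈ Finset.Ico (M J') (M (J' + 1)), ρ (posl (l.take r) a) := by
        rw [Finset.range_eq_Ico, Finset.range_eq_Ico]
        exact (Finset.sum_Ico_consecutive _ (Nat.zero_le _) h1).symm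
      rw [h2]
      refine add_le_add ih ?_
      split_ifs with hb
      · have h3 : ∑ r ∈ Finset.Ico (M J') (M (J' + 1)), ρ (b J') ≤
            ∑ r ∈ Finset.Ico (M J') (M (J' + 1)), ρ (posl (l.take r) a) := by
          refine Finset.sum_le_sum fun r hr => ?_
          exact hρ ((posl_take_mono l a (Finset.mem_Ico.1 hr).2.le).trans hb)
        rw [Finset.sum_const, Nat.card_Ico, nsmul_eq_mul] at h3
        exact h3
      · rw [mul_zero]
        exact bot_le
  refine (key J).trans ?_
  exact Finset.sum_le_sum_of_subset (Finset.range_mono hl)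

end Pool.Agent.Helper86.EV
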